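import Pool.Agent.E8helper4.FV.Stm2
import Pool.Agent.E8helper85.FV.C2

/-!
FV2, piece D1: existence of the tangent angle when the curvature is nonnegative.
-/

set_option autoImplicit false

open Complex MeasureTheory Metric Set Filter Topology ComplexConjugate

namespace Pool.Agent.E8helper36.FV

open Pool.Agent.E8helper4.FV

lemma hasDerivAt_expI (t : ℝ) :
    HasDerivAt (fun t : ℝ => exp ((t : ℂ) * I)) (exp ((t : ℂ) * I) * I) t := by
  have e1 : HasDerivAt (fun t : ℝ => (t : ℂ) * I) (1 * I) t :=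
    (Complex.ofRealCLM.hasDerivAt (x := t)).mul_const I
  rw [one_mul] at e1
  exact e1.cexp

lemma analyticAt_expI (t : ℝ) : AnalyticAt ℝ (fun t : ℝ => exp ((t : ℂ) * I)) t := by
  have h1 : AnalyticAt ℝ (fun t : ℝ => (t : ℂ) * I) t :=
    (Complex.ofRealCLM.analyticAt t).mul analyticAt_const
  have h2 : AnalyticAt ℝ (fun z : ℂ => exp z) ((t : ℂ) * I) :=
    (analyticAt_cexp (z := (t : ℂ) * I)).restrictScalars
  exact AnalyticAt.fun_comp_of_eq h2 h1 rfl

lemma mem_of_expI {r : ℝ} (hr : 1 < r) (t : ℝ) : exp ((t : ℂ) * I) ∈ ball (0 : ℂ) r := by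
  rw [mem_ball_zero_iff, norm_exp_ofReal_mul_I]
  exact hr

lemma analyticAt_comp_expI {H : ℂ → ℂ} {r : ℝ} (hr : 1 < r) (hH : DifferentiableOn ℂ H (ball 0 r))
    (t : ℝ) : AnalyticAt ℝ (fun t : ℝ => H (exp ((t : ℂ) * I))) t := by
  have h1 : AnalyticAt ℂ H (exp ((t : ℂ) * I)) :=
    hH.analyticAt (isOpen_ball.mem_nhds (mem_of_expI hr t))
  have h2 : AnalyticAt ℝ H (exp ((t : ℂ) * I)) := h1.restrictScalars
  exact AnalyticAt.fun_comp_of_eq h2 (analyticAt_expI t) rfl

lemma om_analytic {φ : ℂ → ℂ} {r : ℝ} (hr : 1 < r) (hφ : DifferentiableOn ℂ φ (ball 0 r))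
    (hnz : ∀ w ∈ ball (0 : ℂ) r, deriv φ w ≠ 0) : AnalyticOnNhd ℝ (om φ) univ := by
  have h1 : DifferentiableOn ℂ (deriv φ) (ball 0 r) := hφ.deriv isOpen_ball
  have h2 : DifferentiableOn ℂ (deriv (deriv φ)) (ball 0 r) := h1.deriv isOpen_ball
  have h3 : DifferentiableOn ℂ (fun w => 1 + w * deriv (deriv φ) w / deriv φ w) (ball 0 r) :=
    (differentiableOn_const 1).add ((differentiableOn_id.mul h2).div h1 hnz)
  intro t _
  have h4 := analyticAt_comp_expI hr h3 t
  exact (Complex.reCLM.analyticAt _).fun_comp h4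

theorem d1_core {φ : ℂ → ℂ} {r : ℝ} (hr : 1 < r) (hφ : DifferentiableOn ℂ φ (ball 0 r))
    (hnz : ∀ w ∈ ball (0 : ℂ) r, deriv φ w ≠ 0) (hom : ∀ t, 0 ≤ om φ t) :
    ∃ th : ℝ → ℝ, Ang2 φ th := by
  obtain ⟨L, hL, hE⟩ := Pool.Agent.E8helper85.FV.exists_L hr hφ hnz
  obtain ⟨th, hth⟩ : ∃ th : ℝ → ℝ, th = fun t : ℝ => t + Real.pi / 2 + (L (exp ((t : ℂ) * I))).im :=
    ⟨_, rfl⟩
  have hdth : ∀ t : ℝ, HasDerivAt th (om φ t) t := by
    intro t
    have e1 := (hL _ (mem_of_expI hr t)).comp_of_eq t (hasDerivAt_expI t) rfl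
    have e2 : HasDerivAt (fun t : ℝ => (L (exp ((t : ℂ) * I))).im)
        (deriv (deriv φ) (exp ((t : ℂ) * I)) / deriv φ (exp ((t : ℂ) * I)) *
          (exp ((t : ℂ) * I) * I)).im t := by
      have e3 := (Complex.imCLM.hasFDerivAt (x := L (exp ((t : ℂ) * I)))).comp_hasDerivAt t e1
      exact e3
    have e4 : HasDerivAt (fun t : ℝ => t + Real.pi / 2 + (L (exp ((t : ℂ) * I))).im)
        (1 + (deriv (deriv φ) (exp ((t : ℂ) * I)) / deriv φ (exp ((t : ℂ) * I)) *
          (exp ((t : ℂ) * I) * I)).im) t := ((hasDerivAt_id t).add_const (Real.pi / 2)).add e2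
    rw [hth]
    refine e4.congr_deriv ?_
    unfold om
    have e5 : deriv (deriv φ) (exp ((t : ℂ) * I)) / deriv φ (exp ((t : ℂ) * I)) *
        (exp ((t : ℂ) * I) * I) = (exp ((t : ℂ) * I) * deriv (deriv φ) (exp ((t : ℂ) * I)) /
          deriv φ (exp ((t : ℂ) * I))) * I := by ring
    rw [e5, Complex.add_re, Complex.one_re, Complex.mul_I_im]
  have hper : ∀ t : ℝ, th (t + 2 * Real.pi) = th t + 2 * Real.pi := by
    intro t
    rw [hth]
    have e1 : exp (((t + 2 * Real.pi : ℝ) : ℂ) * I) = exp ((t : ℂ) * I) := by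
      push_cast
      rw [add_mul, exp_add, exp_two_pi_mul_I, mul_one]
    simp only [e1]
    ring
  have hmono : Monotone th := monotone_of_deriv_nonneg (fun t => (hdth t).differentiableAt)
    fun t => by rw [(hdth t).deriv]; exact hom t
  have hsm : StrictMono th := by
    apply hmono.strictMono_of_injective
    have aux : ∀ t1 t2 : ℝ, t1 < t2 → th t1 ≠ th t2 := by
      intro t1 t2 h12 heq
      have hc : ∀ t ∈ Icc t1 t2, th t = th t1 := by
        intro t ht
        exact le_antisymm ((hmono ht.2).trans heq.symm.le) (hmono ht.1)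
      have hz : ∀ t ∈ Ioo t1 t2, om φ t = 0 := by
        intro t ht
        have h1 : th =ᶠ[𝓝 t] fun _ => th t1 := by
          filter_upwards [Ioo_mem_nhds ht.1 ht.2] with s hs
          exact hc s ⟨hs.1.le, hs.2.le⟩
        have h2 : HasDerivAt th 0 t := (hasDerivAt_const t (th t1)).congr_of_eventuallyEq h1
        exact (hdth t).unique h2
      have han := om_analytic hr hφ hnz
      have hmid : (t1 + t2) / 2 ∈ Ioo t1 t2 := ⟨by linarith, by linarith⟩
      have hev : om φ =ᶠ[𝓝 ((t1 + t2) / 2)] 0 := by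
        filter_upwards [Ioo_mem_nhds hmid.1 hmid.2] with s hs
        exact hz s hs
      have hall := han.eqOn_zero_of_preconnected_of_eventuallyEq_zero isPreconnected_univ
        (mem_univ _) hev
      have hconst : ∀ s, th s = th 0 := by
        intro s
        exact is_const_of_deriv_eq_zero (fun t => (hdth t).differentiableAt)
          (fun t => by rw [(hdth t).deriv]; exact hall (mem_univ t)) s 0
      have h3 := hper 0
      rw [hconst (0 + 2 * Real.pi)] at h3
      have : 0 < Real.pi := Real.pi_pos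
      linarith
    intro t1 t2 h
    rcases lt_trichotomy t1 t2 with h1 | h1 | h1
    · exact absurd h (aux t1 t2 h1)
    · exact h1
    · exact absurd h.symm (aux t2 t1 h1)
  refine ⟨th, ?_, hdth, hper, hsm⟩
  intro t
  unfold xd
  rw [hE _ (mem_of_expI hr t), Complex.norm_exp]
  have h1 : I * exp ((t : ℂ) * I) * exp (L (exp ((t : ℂ) * I))) =
      exp ((Real.pi : ℂ) / 2 * I) * exp ((t : ℂ) * I) * exp (L (exp ((t : ℂ) * I))) := by
    rw [exp_pi_div_two_mul_I]
  rw [h1, Complex.ofReal_exp, ← exp_add, ← exp_add, ← exp_add]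
  congr 1
  rw [hth]
  push_cast
  have h2 := Complex.re_add_im (L (exp ((t : ℂ) * I)))
  linear_combination -h2

theorem t_D1 : D1 := fun _ r hr hφ hinj hom =>
  d1_core hr hφ (Pool.Agent.Y769.SC.nz _ r hφ hinj) hom

end Pool.Agent.E8helper36.FV
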