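import Pool.Agent.E8helper4.FV.Stm2
import Pool.Agent.E8helper36.FV.D1

/-!
FV2, piece D2: four zeros at two pairs of points with opposite tangents.
-/

set_option autoImplicit false

open Complex MeasureTheory Metric Set Filter Topology ComplexConjugate

namespace Pool.Agent.E8helper36.FV

open Pool.Agent.E8helper4.FV

lemma hasDerivAt_xx {φ : ℂ → ℂ} {r : ℝ} (hr : 1 < r) (hφ : DifferentiableOn ℂ φ (ball 0 r))
    (t : ℝ) : HasDerivAt (xx φ) (xd φ t) t := by
  have h1 : HasDerivAt φ (deriv φ (exp ((t : ℂ) * I))) (exp ((t : ℂ) * I)) :=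
    ((hφ _ (mem_of_expI hr t)).differentiableAt
      (isOpen_ball.mem_nhds (mem_of_expI hr t))).hasDerivAt
  have h2 := h1.comp_of_eq t (hasDerivAt_expI t) rfl
  refine h2.congr_deriv ?_
  unfold xd
  ring

lemma xx_per (φ : ℂ → ℂ) (t : ℝ) : xx φ (t + 2 * Real.pi) = xx φ t := by
  unfold xx
  congr 1
  push_cast
  rw [add_mul, exp_add, exp_two_pi_mul_I, mul_one]

lemma surj_of_ang2 {φ : ℂ → ℂ} {th : ℝ → ℝ} (h : Ang2 φ th) : Function.Surjective th := by
  have hcont : Continuous th := continuous_iff_continuousAt.2 fun t => (h.dth t).continuousAt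
  have hP : Function.Periodic (fun t => th t - t) (2 * Real.pi) := by
    intro t
    simp only [h.pth]
    ring
  intro s
  obtain ⟨n, hn⟩ : ∃ n : ℤ, n = ⌊(s - th 0) / (2 * Real.pi)⌋ := ⟨_, rfl⟩
  have hpi : 0 < 2 * Real.pi := by positivity
  have h1 : (n : ℝ) ≤ (s - th 0) / (2 * Real.pi) := by rw [hn]; exact Int.floor_le _
  have h2 : (s - th 0) / (2 * Real.pi) < n + 1 := by rw [hn]; exact Int.lt_floor_add_one _
  rw [le_div_iff₀ hpi] at h1
  rw [div_lt_iff₀ hpi] at h2
  have h3 := hP.int_mul_eq n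
  have h4 := hP.int_mul_eq (n + 1)
  simp only [sub_zero] at h3 h4
  push_cast at h4
  have h5 : th (n * (2 * Real.pi)) ≤ s := by linarith
  have h6 : s ≤ th ((n + 1) * (2 * Real.pi)) := by linarith
  have h7 := intermediate_value_Icc (by nlinarith : (n : ℝ) * (2 * Real.pi) ≤
    ((n : ℝ) + 1) * (2 * Real.pi)) hcont.continuousOn
  obtain ⟨t, -, ht⟩ := h7 ⟨h5, h6⟩
  exact ⟨t, ht⟩

/-- the derivative of the support function -/
lemma supp_deriv {φ : ℂ → ℂ} {r : ℝ} {th T : ℝ → ℝ} (hr : 1 < r)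
    (hφ : DifferentiableOn ℂ φ (ball 0 r)) (h : Ang2 φ th) (hthT : ∀ s, th (T s) = s)
    (hTc : Continuous T) (s0 : ℝ) :
    HasDerivAt (fun s : ℝ => (I * exp (-((s : ℂ) * I)) * xx φ (T s)).re)
      ((exp (-((s0 : ℂ) * I)) * xx φ (T s0)).re) s0 := by
  -- a bound for the speed near `T s0`
  have hdφ : ContinuousOn (deriv φ) (ball 0 r) := (hφ.deriv isOpen_ball).continuousOn
  have hvc : Continuous (fun t : ℝ => ‖deriv φ (exp ((t : ℂ) * I))‖) := by
    have h1 : Continuous (fun t : ℝ => exp ((t : ℂ) * I)) := by fun_prop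
    exact (hdφ.comp_continuous h1 (fun t => mem_of_expI hr t)).norm
  obtain ⟨C, hC⟩ := (isCompact_Icc (a := T s0 - 1) (b := T s0 + 1)).exists_bound_of_continuousOn
    hvc.continuousOn
  have hC0 : 0 ≤ C := (norm_nonneg _).trans (hC (T s0) ⟨by linarith, by linarith⟩)
  -- the first difference
  have hfirst : HasDerivAt (fun s : ℝ => (I * exp (-((s : ℂ) * I)) * (xx φ (T s) - xx φ (T s0))).re)
      0 s0 := by
    rw [hasDerivAt_iff_isLittleO]
    have hz : (I * exp (-((s0 : ℂ) * I)) * (xx φ (T s0) - xx φ (T s0))).re = 0 := by simp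
    simp only [hz, sub_zero, smul_zero]
    have hbound : ∀ᶠ s : ℝ in 𝓝 s0, ‖(I * exp (-((s : ℂ) * I)) * (xx φ (T s) - xx φ (T s0))).re‖ ≤
        C * |s - s0| * |T s - T s0| := by
      have hnear : ∀ᶠ s : ℝ in 𝓝 s0, |T s - T s0| < 1 := by
        have h1 : Tendsto T (𝓝 s0) (𝓝 (T s0)) := hTc.continuousAt
        have h2 := (Metric.tendsto_nhds.1 h1) 1 one_pos
        filter_upwards [h2] with s hs
        rwa [Real.dist_eq] at hs
      filter_upwards [hnear] with s hs
      rw [abs_lt] at hs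
      set g : ℝ → ℝ := fun t => (I * exp (-((s : ℂ) * I)) * xx φ t).re with hg
      have hgd : ∀ t : ℝ, HasDerivAt g ((I * exp (-((s : ℂ) * I)) * xd φ t).re) t := by
        intro t
        have h1 := (hasDerivAt_xx hr hφ t).const_mul (I * exp (-((s : ℂ) * I)))
        have h2 := (Complex.reCLM.hasFDerivAt (x := I * exp (-((s : ℂ) * I)) * xx φ t)).comp_hasDerivAt
          t h1
        exact h2
      have hgval : ∀ t : ℝ, (I * exp (-((s : ℂ) * I)) * xd φ t).re =
          -(‖deriv φ (exp ((t : ℂ) * I))‖ * Real.sin (th t - s)) := by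
        intro t
        rw [h.tan t]
        have h1 : I * exp (-((s : ℂ) * I)) * ((‖deriv φ (exp ((t : ℂ) * I))‖ : ℂ) *
            exp ((th t : ℂ) * I)) = (‖deriv φ (exp ((t : ℂ) * I))‖ : ℂ) *
            (I * exp (((th t - s : ℝ) : ℂ) * I)) := by
          have h2 : exp (((th t - s : ℝ) : ℂ) * I) =
              exp (-((s : ℂ) * I)) * exp ((th t : ℂ) * I) := by
            rw [← exp_add]
            congr 1
            push_cast
            ring
          rw [h2]
          ring
        rw [h1, Complex.re_ofReal_mul, Complex.I_mul_re, Complex.exp_ofReal_mul_I_im]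
        ring
      have hmv : ‖g (T s) - g (T s0)‖ ≤ (C * |s - s0|) * ‖T s - T s0‖ := by
        refine (convex_uIcc (T s0) (T s)).norm_image_sub_le_of_norm_hasDerivWithin_le
          (f := g) (f' := fun t => (I * exp (-((s : ℂ) * I)) * xd φ t).re) (C := C * |s - s0|)
          (fun t _ => (hgd t).hasDerivWithinAt) ?_ left_mem_uIcc right_mem_uIcc
        intro t ht
        rw [hgval t, norm_neg, norm_mul, norm_norm]
        have htI : t ∈ Icc (T s0 - 1) (T s0 + 1) := by
          rcases mem_uIcc.1 ht with h1 | h1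
          · exact ⟨by linarith [h1.1], by linarith [h1.2, hs.2]⟩
          · exact ⟨by linarith [h1.1, hs.1], by linarith [h1.2]⟩
        have h1 : ‖deriv φ (exp ((t : ℂ) * I))‖ ≤ C := by
          have := hC t htI
          rwa [norm_norm] at this
        have h2 : ‖Real.sin (th t - s)‖ ≤ |s - s0| := by
          rw [Real.norm_eq_abs]
          have h3 : |Real.sin (th t - s)| ≤ |th t - s| := Real.abs_sin_le_abs
          refine h3.trans ?_
          rcases mem_uIcc.1 ht with h4 | h4
          · have h5 := h.mth.monotone h4.1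
            have h6 := h.mth.monotone h4.2
            rw [hthT] at h5 h6
            rw [abs_of_nonpos (by linarith), abs_of_nonneg (by linarith)]
            linarith
          · have h5 := h.mth.monotone h4.1
            have h6 := h.mth.monotone h4.2
            rw [hthT] at h5 h6
            rw [abs_of_nonneg (by linarith), abs_of_nonpos (by linarith)]
            linarith
        exact mul_le_mul h1 h2 (norm_nonneg _) hC0
      have h8 : (I * exp (-((s : ℂ) * I)) * (xx φ (T s) - xx φ (T s0))).re =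
          g (T s) - g (T s0) := by
        rw [hg, mul_sub, Complex.sub_re]
      rw [h8]
      exact hmv
    rw [Asymptotics.isLittleO_iff]
    intro c hc
    have h1 : Tendsto T (𝓝 s0) (𝓝 (T s0)) := hTc.continuousAt
    have hsmall : ∀ᶠ s : ℝ in 𝓝 s0, C * |T s - T s0| ≤ c := by
      have h2 : Tendsto (fun s => C * |T s - T s0|) (𝓝 s0) (𝓝 (C * |T s0 - T s0|)) :=
        ((h1.sub_const (T s0)).abs).const_mul C
      rw [sub_self, abs_zero, mul_zero] at h2
      exact (h2.eventually (gt_mem_nhds hc)).mono (fun s hs => le_of_lt hs)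
    filter_upwards [hbound, hsmall] with s hs1 hs2
    refine hs1.trans ?_
    rw [Real.norm_eq_abs]
    have h3 : 0 ≤ |s - s0| := abs_nonneg _
    calc C * |s - s0| * |T s - T s0| = C * |T s - T s0| * |s - s0| := by ring
      _ ≤ c * |s - s0| := mul_le_mul_of_nonneg_right hs2 h3
  have hsecond : HasDerivAt (fun s : ℝ => (I * exp (-((s : ℂ) * I)) * xx φ (T s0)).re)
      ((exp (-((s0 : ℂ) * I)) * xx φ (T s0)).re) s0 := by
    have h1 : HasDerivAt (fun s : ℝ => -((s : ℂ) * I)) (-(1 * I)) s0 :=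
      ((Complex.ofRealCLM.hasDerivAt (x := s0)).mul_const I).neg
    have h2 := (h1.cexp.const_mul I).mul_const (xx φ (T s0))
    have h3 := (Complex.reCLM.hasFDerivAt
      (x := I * exp (-((s0 : ℂ) * I)) * xx φ (T s0))).comp_hasDerivAt s0 h2
    refine HasDerivAt.congr_deriv h3 ?_
    show (I * (exp (-((s0 : ℂ) * I)) * -(1 * I)) * xx φ (T s0)).re = _
    congr 1
    have h4 : I * (exp (-((s0 : ℂ) * I)) * -(1 * I)) = -(I * I) * exp (-((s0 : ℂ) * I)) := by ring
    rw [h4, I_mul_I, neg_neg, one_mul]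
  have hsum := hfirst.add hsecond
  rw [zero_add] at hsum
  refine hsum.congr_of_eventuallyEq ?_
  filter_upwards with s
  show _ = (I * exp (-((s : ℂ) * I)) * (xx φ (T s) - xx φ (T s0))).re +
    (I * exp (-((s : ℂ) * I)) * xx φ (T s0)).re
  rw [← Complex.add_re]
  congr 1
  ring

lemma re_exp_b (s A B : ℝ) : (exp (-((s : ℂ) * I)) * ((A : ℂ) + (B : ℂ) * I)).re =
    A * Real.cos s + B * Real.sin s := by
  have h1 : exp (-((s : ℂ) * I)) = (Real.cos s : ℂ) - (Real.sin s : ℂ) * I := by
    have h2 : -((s : ℂ) * I) = ((-s : ℝ) : ℂ) * I := by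
      push_cast
      ring
    rw [h2, Complex.exp_mul_I, ← Complex.ofReal_cos, ← Complex.ofReal_sin, Real.cos_neg,
      Real.sin_neg]
    push_cast
    ring
  rw [h1]
  simp only [Complex.mul_re, Complex.sub_re, Complex.sub_im, Complex.add_re, Complex.add_im,
    Complex.mul_im, Complex.ofReal_re, Complex.ofReal_im, Complex.I_re, Complex.I_im]
  ring

theorem t_D2 : D2 := by
  intro hB1 φ r th hr hφ hom hA
  have hsurj := surj_of_ang2 hA
  obtain ⟨e, he⟩ : ∃ e : ℝ ≃o ℝ, ∀ t, e t = th t :=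
    ⟨hA.mth.orderIsoOfSurjective th hsurj, fun t => rfl⟩
  obtain ⟨T, hT⟩ : ∃ T : ℝ → ℝ, T = e.symm := ⟨_, rfl⟩
  have hthT : ∀ s, th (T s) = s := fun s => by rw [← he, hT]; exact e.apply_symm_apply s
  have hTc : Continuous T := by rw [hT]; exact e.symm.continuous
  have hTm : StrictMono T := by rw [hT]; exact e.symm.strictMono
  have hTp : ∀ s, T (s + 2 * Real.pi) = T s + 2 * Real.pi := by
    intro s
    apply hA.mth.injective
    rw [hthT, hA.pth, hthT]
  have hxc : Continuous (xx φ) :=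
    continuous_iff_continuousAt.2 fun t => (hasDerivAt_xx hr hφ t).continuousAt
  obtain ⟨s1, s2, A, B, h12, h21, z1, z2, z3, z4⟩ :=
    hB1 (fun s : ℝ => (I * exp (-((s : ℂ) * I)) * xx φ (T s)).re)
      (fun s : ℝ => (exp (-((s : ℂ) * I)) * xx φ (T s)).re)
      (fun s => supp_deriv hr hφ hA hthT hTc s)
      (by
        have h1 : Continuous (fun s : ℝ => exp (-((s : ℂ) * I))) := by fun_prop
        exact Complex.continuous_re.comp (h1.mul (hxc.comp hTc)))
      (by
        intro s
        have h1 : exp (-(((s + 2 * Real.pi : ℝ) : ℂ) * I)) = exp (-((s : ℂ) * I)) := by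
          have h2 : -(((s + 2 * Real.pi : ℝ) : ℂ) * I) = -((s : ℂ) * I) - 2 * Real.pi * I := by
            push_cast
            ring
          rw [h2, exp_sub, exp_two_pi_mul_I, div_one]
        show (I * exp (-(((s + 2 * Real.pi : ℝ) : ℂ) * I)) * xx φ (T (s + 2 * Real.pi))).re = _
        rw [h1, hTp, xx_per])
  have hz : ∀ s : ℝ, (exp (-((s : ℂ) * I)) * xx φ (T s)).re = A * Real.cos s + B * Real.sin s →
      fb φ th ((A : ℂ) + (B : ℂ) * I) (T s) = 0 := by
    intro s hs
    unfold fb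
    rw [hthT, mul_sub, Complex.sub_re, re_exp_b, hs, sub_self]
  refine ⟨T s1, T s2, T (s1 + Real.pi), T (s2 + Real.pi), (A : ℂ) + (B : ℂ) * I, hTm h12, hTm h21,
    hTm (by linarith), ?_, ?_, ?_, hz _ z1, hz _ z2, hz _ z3, hz _ z4⟩
  · rw [← hTp]
    apply hTm
    linarith
  · rw [hthT, hthT]
  · rw [hthT, hthT]

end Pool.Agent.E8helper36.FV
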